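import Pool.Agent.QD.F.Trace

/-!
# UPQ/L-Int: the traces of Frobenius are integers
-/

namespace Pool.Agent.UPQ

open Pool.Agent.QD

private theorem luc_int (a p : ℤ) (n : ℕ) : ∃ m : ℤ, luc (a : ℝ) (p : ℝ) n = m := by
  induction n using Nat.twoStepInduction with
  | zero => exact ⟨2, by rw [luc]; norm_num⟩
  | one => exact ⟨a, by rw [luc]⟩
  | more n h1 h2 =>
    obtain ⟨m1, h1⟩ := h1
    obtain ⟨m2, h2⟩ := h2
    exact ⟨a * m2 - p * m1, by rw [luc, h1, h2]; push_cast; rfl⟩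

theorem aT_int (A B : ℤ) (T : Finset ℕ) (q : ℕ) : ∃ n : ℤ, aT A B T q = n := by
  unfold aT
  split_ifs with h
  · have h1 : ((q.minFac : ℕ) : ℝ) = ((q.minFac : ℤ) : ℝ) := by push_cast; rfl
    rw [h1]
    exact luc_int _ _ _
  · exact ⟨0, by norm_num⟩

end Pool.Agent.UPQ
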