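import Mathlib

/-!
# UPQ/L-Contr: the rational function identity determines `lam`

The two sides of the identity are, up to a common factor, polynomials in `q ^ (-s)` which agree
at infinitely many points; comparing the coefficients of degree one gives the value of `lam`.
-/

namespace Pool.Agent.UPQ

open Polynomial in
private theorem cq_coeff_cmp {lam τ q : ℂ} {S : Set ℂ} (hS : S.Infinite)
    (h : ∀ x ∈ S, (1 + lam * x + q * x ^ 2) * (1 + τ * x) * (1 + q ^ 3 / τ * x) =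
      (1 + lam * q * x + q ^ 3 * x ^ 2) * (1 + τ / q * x) * (1 + q ^ 2 / τ * x)) :
    lam + τ + q ^ 3 / τ = lam * q + τ / q + q ^ 2 / τ := by
  have h1 : ((1 + C lam * X + C q * X ^ 2) * (1 + C τ * X) * (1 + C (q ^ 3 / τ) * X) : ℂ[X]) =
      (1 + C (lam * q) * X + C (q ^ 3) * X ^ 2) * (1 + C (τ / q) * X) *
        (1 + C (q ^ 2 / τ) * X) := by
    apply Polynomial.eq_of_infinite_eval_eq
    refine hS.mono fun x hx => ?_
    have h2 := h x hx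
    simpa using h2
  have h3 := congrArg (fun p : ℂ[X] => p.derivative.eval 0) h1
  simp only [derivative_mul, derivative_add, derivative_one, derivative_C, derivative_X,
    derivative_X_pow, eval_add, eval_mul, eval_C, eval_X, eval_one, eval_pow, eval_zero] at h3
  linear_combination h3

theorem contrQ {q : ℕ} (hq : 101 ≤ q) {lam : ℝ} {t0 : ℂ} {β : ℝ}
    (h : ∀ s : ℂ, s.re < β →
      (q : ℂ) * (1 + (lam : ℂ) * (q : ℂ) ^ (-s) + (q : ℂ) ^ (1 - 2 * s)) *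
          ((Real.sqrt q : ℂ) * (1 + (q : ℂ) ^ (t0 + s - 3 / 2 - 3 / 2))) *
          (1 + (q : ℂ) ^ (t0 - s + 1 / 2 - 1 / 2)) =
        (1 + (lam : ℂ) * (q : ℂ) ^ (1 - s) + (q : ℂ) ^ (3 - 2 * s)) *
          (1 + (q : ℂ) ^ (t0 + s - 3 / 2 - 1 / 2)) *
          ((Real.sqrt q : ℂ) * (1 + (q : ℂ) ^ (t0 - s + 1 / 2 - 3 / 2)))) :
    (lam : ℂ) = (q : ℂ) ^ (t0 - 1) + (q : ℂ) ^ (2 - t0) := by
  have hqR : (101 : ℝ) ≤ q := by exact_mod_cast hq
  have hqpos : (0 : ℝ) < q := by linarith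
  have hq0 : (q : ℂ) ≠ 0 := by
    intro h0
    rw [Nat.cast_eq_zero] at h0
    omega
  set τ : ℂ := (q : ℂ) ^ t0 with hτ
  have hτ0 : τ ≠ 0 := by
    rw [hτ, Complex.cpow_def_of_ne_zero hq0]
    exact Complex.exp_ne_zero _
  have hsq : (Real.sqrt q : ℂ) ≠ 0 := by
    rw [Complex.ofReal_ne_zero]
    exact (Real.sqrt_pos.2 hqpos).ne'
  set S : Set ℂ := Set.range (fun n : ℕ => (q : ℂ) ^ (n + Nat.ceil |β| + 1)) with hS
  have hSinf : S.Infinite := by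
    apply Set.infinite_range_of_injective
    intro a b hab
    have h1 : (q : ℂ) ^ (a + Nat.ceil |β| + 1) = (q : ℂ) ^ (b + Nat.ceil |β| + 1) := hab
    have h2 : q ^ (a + Nat.ceil |β| + 1) = q ^ (b + Nat.ceil |β| + 1) := by exact_mod_cast h1
    have h3 := Nat.pow_right_injective (by omega : 2 ≤ q) h2
    omega
  have hid : ∀ x ∈ S, (1 + (lam : ℂ) * x + (q : ℂ) * x ^ 2) * (1 + τ * x) *
      (1 + (q : ℂ) ^ 3 / τ * x) = (1 + (lam : ℂ) * q * x + (q : ℂ) ^ 3 * x ^ 2) *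
      (1 + τ / q * x) * (1 + (q : ℂ) ^ 2 / τ * x) := by
    rintro x ⟨n, rfl⟩
    set M : ℕ := n + Nat.ceil |β| + 1 with hM
    show (1 + (lam : ℂ) * (q : ℂ) ^ M + (q : ℂ) * ((q : ℂ) ^ M) ^ 2) * (1 + τ * (q : ℂ) ^ M) *
      (1 + (q : ℂ) ^ 3 / τ * (q : ℂ) ^ M) = (1 + (lam : ℂ) * q * (q : ℂ) ^ M +
      (q : ℂ) ^ 3 * ((q : ℂ) ^ M) ^ 2) * (1 + τ / q * (q : ℂ) ^ M) *
      (1 + (q : ℂ) ^ 2 / τ * (q : ℂ) ^ M)
    set x : ℂ := (q : ℂ) ^ M with hx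
    have hx0 : x ≠ 0 := pow_ne_zero _ hq0
    have hre : (-(M : ℂ)).re < β := by
      rw [Complex.neg_re, Complex.natCast_re]
      have h1 : |β| ≤ (Nat.ceil |β| : ℝ) := Nat.le_ceil _
      have h2 : -|β| ≤ β := neg_abs_le β
      have h3 : ((Nat.ceil |β| : ℕ) : ℝ) + 1 ≤ (M : ℝ) := by
        rw [hM]
        push_cast
        have : (0 : ℝ) ≤ n := Nat.cast_nonneg n
        linarith
      linarith
    have h1 := h (-(M : ℂ)) hre
    have e1 : (q : ℂ) ^ (-(-(M : ℂ))) = x := by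
      rw [neg_neg, Complex.cpow_natCast]
    have e2 : (q : ℂ) ^ (1 - 2 * (-(M : ℂ))) = q * x ^ 2 := by
      rw [show (1 - 2 * (-(M : ℂ))) = ((1 + M + M : ℕ) : ℂ) by push_cast; ring,
        Complex.cpow_natCast, pow_add, pow_add, pow_one, hx]
      ring
    have e3 : (q : ℂ) ^ (t0 + (-(M : ℂ)) - 3 / 2 - 3 / 2) = τ / (x * (q : ℂ) ^ 3) := by
      rw [show (t0 + (-(M : ℂ)) - 3 / 2 - 3 / 2) = t0 - ((M + 3 : ℕ) : ℂ) by push_cast; ring,
        Complex.cpow_sub _ _ hq0, Complex.cpow_natCast, pow_add]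
    have e4 : (q : ℂ) ^ (t0 - (-(M : ℂ)) + 1 / 2 - 1 / 2) = τ * x := by
      rw [show (t0 - (-(M : ℂ)) + 1 / 2 - 1 / 2) = t0 + ((M : ℕ) : ℂ) by ring,
        Complex.cpow_add _ _ hq0, Complex.cpow_natCast]
    have e5 : (q : ℂ) ^ (1 - (-(M : ℂ))) = q * x := by
      rw [show (1 - (-(M : ℂ))) = ((1 + M : ℕ) : ℂ) by push_cast; ring,
        Complex.cpow_natCast, pow_add, pow_one]
    have e6 : (q : ℂ) ^ (3 - 2 * (-(M : ℂ))) = (q : ℂ) ^ 3 * x ^ 2 := by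
      rw [show (3 - 2 * (-(M : ℂ))) = ((3 + M + M : ℕ) : ℂ) by push_cast; ring,
        Complex.cpow_natCast, pow_add, pow_add, hx]
      ring
    have e7 : (q : ℂ) ^ (t0 + (-(M : ℂ)) - 3 / 2 - 1 / 2) = τ / (x * (q : ℂ) ^ 2) := by
      rw [show (t0 + (-(M : ℂ)) - 3 / 2 - 1 / 2) = t0 - ((M + 2 : ℕ) : ℂ) by push_cast; ring,
        Complex.cpow_sub _ _ hq0, Complex.cpow_natCast, pow_add]
    have e8 : (q : ℂ) ^ (t0 - (-(M : ℂ)) + 1 / 2 - 3 / 2) = τ * x / q := by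
      rw [show (t0 - (-(M : ℂ)) + 1 / 2 - 3 / 2) = t0 + ((M : ℕ) : ℂ) - 1 by ring,
        Complex.cpow_sub _ _ hq0, Complex.cpow_add _ _ hq0, Complex.cpow_natCast,
        Complex.cpow_one]
    rw [e1, e2, e3, e4, e5, e6, e7, e8] at h1
    have h2 : ((q : ℂ) * (1 + (lam : ℂ) * x + q * x ^ 2) * (1 + τ / (x * (q : ℂ) ^ 3)) *
        (1 + τ * x)) = (1 + (lam : ℂ) * (q * x) + (q : ℂ) ^ 3 * x ^ 2) *
        (1 + τ / (x * (q : ℂ) ^ 2)) * (1 + τ * x / q) := by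
      apply mul_left_cancel₀ hsq
      linear_combination h1
    have h3 : (1 + (lam : ℂ) * x + (q : ℂ) * x ^ 2) * (1 + τ * x) *
      (1 + (q : ℂ) ^ 3 / τ * x) = (q : ℂ) ^ 2 * x / τ *
      ((q : ℂ) * (1 + (lam : ℂ) * x + q * x ^ 2) * (1 + τ / (x * (q : ℂ) ^ 3)) *
        (1 + τ * x)) := by
      field_simp
      ring
    rw [h3, h2]
    field_simp
    ring
  have key := cq_coeff_cmp hSinf hid
  have key2 : ((q : ℂ) - 1) * (τ / q + (q : ℂ) ^ 2 / τ - lam) = 0 := by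
    have : ((q : ℂ) - 1) * (τ / q + (q : ℂ) ^ 2 / τ - lam) =
      (lam + τ + (q : ℂ) ^ 3 / τ) - (lam * q + τ / q + (q : ℂ) ^ 2 / τ) := by
      field_simp
      ring
    rw [this, key, sub_self]
  have hq1 : (q : ℂ) - 1 ≠ 0 := by
    rw [sub_ne_zero]
    intro h1
    have : q = 1 := by exact_mod_cast h1
    omega
  have key3 : (lam : ℂ) = τ / q + (q : ℂ) ^ 2 / τ := by
    rcases mul_eq_zero.1 key2 with h1 | h1
    · exact absurd h1 hq1
    · exact (sub_eq_zero.1 h1).symm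
  rw [key3, Complex.cpow_sub _ _ hq0, Complex.cpow_one, Complex.cpow_sub _ _ hq0,
    show (2 : ℂ) = ((2 : ℕ) : ℂ) by norm_num, Complex.cpow_natCast]

end Pool.Agent.UPQ
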