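import Pool.Agent.QD.N1Main
import Pool.Agent.QD.In.ZSx

/-!
# UPQ/L-Div: the sum of the reciprocals of the norms diverges

If `∑ 1 / nrm v` converges, then `ZP K w` is bounded for real `w > 1`, and `Z w = (w - 1) * ZP K w → 0` for `w → 1` (`zeta_fe`).  At most `[K : ℚ]` places have the same norm, and so also the sum over the set of the norms
of the places outside a finite set diverges.
-/

namespace Pool.Agent.UPQ

open NumberField IsDedekindDomain Pool.Agent.HWR Pool.Agent.QD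

section zeta

variable {K : Type} [Field K] [NumberField K]

private theorem updiv_two_le (v : HeightOneSpectrum (𝓞 K)) : (2 : ℝ) ≤ nrm v := by
  have h0 := nrm_ne_zero v
  have h1 := nrm_ne_one v
  have : 2 ≤ nrm v := by omega
  exact_mod_cast this

private theorem updiv_pos (σ : ℝ) (v : HeightOneSpectrum (𝓞 K)) : 0 < (nrm v : ℝ) ^ (-σ) :=
  Real.rpow_pos_of_pos (by linarith [updiv_two_le v]) _

private theorem updiv_le {σ : ℝ} (hσ : 1 < σ) (v : HeightOneSpectrum (𝓞 K)) :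
    (nrm v : ℝ) ^ (-σ) ≤ (nrm v : ℝ)⁻¹ := by
  have h2 := updiv_two_le v
  calc (nrm v : ℝ) ^ (-σ) ≤ (nrm v : ℝ) ^ (-1 : ℝ) :=
        Real.rpow_le_rpow_of_exponent_le (by linarith) (by linarith)
    _ = (nrm v : ℝ)⁻¹ := Real.rpow_neg_one _

private theorem updiv_half {σ : ℝ} (hσ : 1 < σ) (v : HeightOneSpectrum (𝓞 K)) :
    (nrm v : ℝ) ^ (-σ) ≤ 1 / 2 := by
  refine (updiv_le hσ v).trans ?_
  rw [one_div]
  exact inv_anti₀ (by norm_num) (updiv_two_le v)

private theorem updiv_log {y : ℝ} (h0 : 0 < y) (h1 : y ≤ 1 / 2) :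
    0 ≤ -Real.log (1 - y) ∧ -Real.log (1 - y) ≤ 2 * y := by
  have h2 : 0 < 1 - y := by linarith
  constructor
  · have := Real.log_nonpos h2.le (by linarith : 1 - y ≤ 1)
    linarith
  · have h3 := Real.one_sub_inv_le_log_of_pos h2
    have h4 : (1 - y)⁻¹ ≤ 1 + 2 * y := by
      rw [inv_le_iff_one_le_mul₀ h2]
      nlinarith
    linarith

private theorem updiv_ZP (hs : Summable fun v : HeightOneSpectrum (𝓞 K) => (nrm v : ℝ)⁻¹)
    {σ : ℝ} (hσ : 1 < σ) :
    ‖ZP K (σ : ℂ)‖ ≤ Real.exp (∑' v : HeightOneSpectrum (𝓞 K), 2 * (nrm v : ℝ)⁻¹) := by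
  set g : HeightOneSpectrum (𝓞 K) → ℝ := fun v => -Real.log (1 - (nrm v : ℝ) ^ (-σ)) with hg
  have hg0 : ∀ v, 0 ≤ g v := fun v => (updiv_log (updiv_pos σ v) (updiv_half hσ v)).1
  have hg1 : ∀ v, g v ≤ 2 * (nrm v : ℝ)⁻¹ := fun v =>
    (updiv_log (updiv_pos σ v) (updiv_half hσ v)).2.trans (by linarith [updiv_le hσ v])
  have hgs : Summable g := Summable.of_nonneg_of_le hg0 hg1 (hs.mul_left 2)
  have h1 := (Complex.hasSum_ofReal.2 hgs.hasSum).cexp
  rw [← Complex.ofReal_exp] at h1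
  have h5 : HasProd (fun v : HeightOneSpectrum (𝓞 K) => (1 - (nrm v : ℂ) ^ (-(σ : ℂ)))⁻¹)
      ((Real.exp (∑' v, g v) : ℝ) : ℂ) := by
    refine h1.congr_fun ?_
    intro v
    show _ = Complex.exp ((g v : ℝ) : ℂ)
    have h2 : (nrm v : ℂ) ^ (-(σ : ℂ)) = (((nrm v : ℝ) ^ (-σ) : ℝ) : ℂ) := by
      rw [Complex.ofReal_cpow (Nat.cast_nonneg _)]
      push_cast
      rfl
    have h3 : 0 < 1 - (nrm v : ℝ) ^ (-σ) := by linarith [updiv_half hσ v]
    rw [← Complex.ofReal_exp, hg]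
    show _ = ((Real.exp (-Real.log (1 - (nrm v : ℝ) ^ (-σ))) : ℝ) : ℂ)
    rw [Real.exp_neg, Real.exp_log h3, h2]
    push_cast
    rfl
  have h6 : ZP K (σ : ℂ) = ((Real.exp (∑' v, g v) : ℝ) : ℂ) := by
    unfold ZP
    exact h5.tprod_eq
  rw [h6, Complex.norm_real, Real.norm_of_nonneg (Real.exp_pos _).le]
  exact Real.exp_le_exp.2 (hgs.tsum_le_tsum hg1 (hs.mul_left 2))

private theorem updiv_all : ¬ Summable fun v : HeightOneSpectrum (𝓞 K) => (nrm v : ℝ)⁻¹ := by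
  intro hs
  obtain ⟨Z, h1, -, h3, h4, -⟩ := zeta_fe K
  set E : ℝ := Real.exp (∑' v : HeightOneSpectrum (𝓞 K), 2 * (nrm v : ℝ)⁻¹) with hE
  have hb : ∀ δ : ℝ, 0 < δ → ‖Z ((1 + δ : ℝ) : ℂ)‖ ≤ δ * E := by
    intro δ hδ
    rw [h4 _ (by rw [Complex.ofReal_re]; linarith), norm_mul]
    have h5 : ((1 + δ : ℝ) : ℂ) - 1 = ((δ : ℝ) : ℂ) := by
      push_cast
      ring
    rw [h5, Complex.norm_real, Real.norm_of_nonneg hδ.le]
    exact mul_le_mul_of_nonneg_left (updiv_ZP hs (by linarith)) hδ.le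
  have hc : Continuous fun δ : ℝ => ‖Z ((1 + δ : ℝ) : ℂ)‖ :=
    (h1.continuous.comp (Complex.continuous_ofReal.comp
      (continuous_const.add continuous_id))).norm
  have h6 : Filter.Tendsto (fun δ : ℝ => ‖Z ((1 + δ : ℝ) : ℂ)‖) (nhdsWithin 0 (Set.Ioi 0))
      (nhds ‖Z ((1 + 0 : ℝ) : ℂ)‖) := hc.continuousAt.mono_left nhdsWithin_le_nhds
  have h7 : Filter.Tendsto (fun δ : ℝ => δ * E) (nhdsWithin 0 (Set.Ioi 0)) (nhds (0 * E)) :=
    ((continuous_id.mul continuous_const).continuousAt (x := (0 : ℝ))).mono_left nhdsWithin_le_nhds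
  have h8 : ‖Z ((1 + 0 : ℝ) : ℂ)‖ ≤ 0 * E := by
    refine le_of_tendsto_of_tendsto h6 h7 ?_
    filter_upwards [self_mem_nhdsWithin] with δ hδ
    exact hb δ hδ
  rw [zero_mul, add_zero, Complex.ofReal_one] at h8
  exact h3 (norm_le_zero_iff.1 h8)

private theorem updiv_card (q : ℕ) (s : Finset (HeightOneSpectrum (𝓞 K)))
    (hs : ∀ v ∈ s, nrm v = q) : s.card ≤ Module.finrank ℚ K := by
  classical
  rcases s.eq_empty_or_nonempty with rfl | ⟨v0, hv0⟩
  · simp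
  have hpr : ∀ v : HeightOneSpectrum (𝓞 K),
      (Ideal.absNorm (Ideal.under ℤ v.asIdeal)).Prime := by
    intro v
    have := v.isPrime
    have : NeZero v.asIdeal := ⟨v.ne_bot⟩
    exact Nat.absNorm_under_prime v.asIdeal
  set p : ℕ := Ideal.absNorm (Ideal.under ℤ v0.asIdeal) with hp
  have hpp : p.Prime := hpr v0
  have hlo : v0.asIdeal.LiesOver (Ideal.span {(p : ℤ)}) := Int.liesOver_span_absNorm v0.asIdeal
  have hq : q = p ^ ((Ideal.span {(p : ℤ)}).inertiaDeg' v0.asIdeal) := by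
    rw [← hs v0 hv0]
    exact Ideal.absNorm_eq_pow_inertiaDeg' v0.asIdeal hpp
  have hpv : ∀ v ∈ s, Ideal.absNorm (Ideal.under ℤ v.asIdeal) = p := by
    intro v hv
    have h1 : Ideal.absNorm (Ideal.under ℤ v.asIdeal) ∣ p ^ ((Ideal.span {(p : ℤ)}).inertiaDeg' v0.asIdeal) := by
      rw [← hq, ← hs v hv]
      exact Int.absNorm_under_dvd_absNorm v.asIdeal
    exact (Nat.prime_dvd_prime_iff_eq (hpr v) hpp).1 ((hpr v).dvd_of_dvd_pow h1)
  have hp0 : Ideal.span {(p : ℤ)} ≠ ⊥ := by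
    rw [Ne, Ideal.span_singleton_eq_bot]
    exact_mod_cast hpp.ne_zero
  have hmax : (Ideal.span {(p : ℤ)}).IsMaximal :=
    ((Ideal.span_singleton_prime (by exact_mod_cast hpp.ne_zero)).2
      (Nat.prime_iff_prime_int.1 hpp)).isMaximal hp0
  have hsub : s.image HeightOneSpectrum.asIdeal ⊆
      IsDedekindDomain.primesOverFinset (Ideal.span {(p : ℤ)}) (𝓞 K) := by
    intro I hI
    obtain ⟨v, hv, rfl⟩ := Finset.mem_image.1 hI
    rw [IsDedekindDomain.mem_primesOverFinset_iff hp0]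
    refine ⟨v.isPrime, ?_⟩
    have h2 := Int.liesOver_span_absNorm v.asIdeal
    rw [hpv v hv] at h2
    exact h2
  have hinj : Function.Injective
      (HeightOneSpectrum.asIdeal : HeightOneSpectrum (𝓞 K) → Ideal (𝓞 K)) := fun v w h =>
    HeightOneSpectrum.ext h
  rw [← Finset.card_image_of_injective s hinj]
  exact (Finset.card_le_card hsub).trans (Ideal.card_primesOverFinset_le_finrank (𝓞 K) ℚ K hp0)

end zeta

theorem not_summable (K : Type) [Field K] [NumberField K]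
    (F0 : Finset (HeightOneSpectrum (𝓞 K))) :
    ¬ Summable fun q : {q : ℕ | ∃ v : HeightOneSpectrum (𝓞 K), v ∉ F0 ∧ nrm v = q} =>
      ((q : ℕ) : ℝ)⁻¹ := by
  classical
  intro hs
  refine updiv_all (K := K) ?_
  rw [← F0.summable_compl_iff]
  set N : Set ℕ := {q : ℕ | ∃ v : HeightOneSpectrum (𝓞 K), v ∉ F0 ∧ nrm v = q} with hN
  set n : ℕ := Module.finrank ℚ K with hn
  refine summable_of_sum_le (c := n * ∑' q : N, ((q : ℕ) : ℝ)⁻¹) (fun v => by positivity) ?_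
  intro s
  let f : {v // v ∉ F0} → N := fun v => ⟨nrm v.1, v.1, v.2, rfl⟩
  calc ∑ v ∈ s, (nrm v.1 : ℝ)⁻¹ = ∑ q ∈ s.image f, ∑ v ∈ s with f v = q, (nrm v.1 : ℝ)⁻¹ :=
        (Finset.sum_fiberwise_of_maps_to (fun v hv => Finset.mem_image_of_mem f hv) _).symm
    _ ≤ ∑ q ∈ s.image f, n * ((q : ℕ) : ℝ)⁻¹ := by
        refine Finset.sum_le_sum fun q _ => ?_
        have h1 : ∀ v ∈ s.filter (fun v => f v = q), (nrm v.1 : ℝ)⁻¹ = ((q : ℕ) : ℝ)⁻¹ := by
          intro v hv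
          have h2 := (Finset.mem_filter.1 hv).2
          have h3 : nrm v.1 = (q : ℕ) := congrArg Subtype.val h2
          rw [h3]
        rw [Finset.sum_congr rfl h1, Finset.sum_const, nsmul_eq_mul]
        refine mul_le_mul_of_nonneg_right ?_ (by positivity)
        have h4 := updiv_card (K := K) (q : ℕ)
          ((s.filter (fun v => f v = q)).map (Function.Embedding.subtype _)) (by
            intro v hv
            obtain ⟨w, hw, rfl⟩ := Finset.mem_map.1 hv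
            exact congrArg Subtype.val (Finset.mem_filter.1 hw).2)
        rw [Finset.card_map] at h4
        exact_mod_cast h4
    _ = n * ∑ q ∈ s.image f, ((q : ℕ) : ℝ)⁻¹ := by rw [Finset.mul_sum]
    _ ≤ n * ∑' q : N, ((q : ℕ) : ℝ)⁻¹ := by
        refine mul_le_mul_of_nonneg_left ?_ (Nat.cast_nonneg _)
        exact hs.sum_le_tsum _ (fun q _ => by positivity)

end Pool.Agent.UPQ
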