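import Mathlib

/-!
# UPQ/L-Sum: a set of integers with gaps has a convergent sum of reciprocals

The elements `q_0 < q_1 < ...` of an infinite `M` satisfy `√q_(i+2) ≥ √q_i + c/3` for `i ≥ 1`, so
`q_i ≥ (c i / 6)²`; compare with `∑ 1/i²`.
-/

namespace Pool.Agent.UPQ

private theorem Sum_step {c x y : ℝ} (hc : 0 < c) (hc1 : c ≤ 1) (hx : 1 ≤ x)
    (h : x + c * Real.sqrt x < y) : Real.sqrt x + c / 3 ≤ Real.sqrt y := by
  have hs1 : 1 ≤ Real.sqrt x := Real.one_le_sqrt.2 hx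
  apply Real.le_sqrt_of_sq_le
  have h1 : Real.sqrt x ^ 2 = x := Real.sq_sqrt (by linarith)
  have h2 : (Real.sqrt x + c / 3) ^ 2 = x + 2 / 3 * (c * Real.sqrt x) + c * c / 9 := by
    rw [← h1, Real.sqrt_sq (by linarith)]
    ring
  rw [h2]
  have h3 : c * c ≤ c * Real.sqrt x := mul_le_mul_of_nonneg_left (by linarith) hc.le
  nlinarith [mul_pos hc (by linarith : 0 < Real.sqrt x)]

theorem sum_gap {c : ℝ} (hc : 0 < c) (hc1 : c ≤ 1) (M : Set ℕ)
    (h : ∀ q1 ∈ M, ∀ q2 ∈ M, ∀ q3 ∈ M, 1 ≤ q1 → q1 < q2 → q2 < q3 →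
      (q1 : ℝ) + c * Real.sqrt q1 < q3) :
    Summable fun q : M => ((q : ℕ) : ℝ)⁻¹ := by
  classical
  rcases M.finite_or_infinite with hM | hM
  · have : Finite M := hM
    exact Summable.of_finite
  have hi : Infinite M := hM.to_subtype
  set e : ℕ ≃o M := Nat.Subtype.orderIsoOfNat M with he
  have hmono : ∀ i j : ℕ, i < j → (e i : ℕ) < (e j : ℕ) := fun i j hij => e.strictMono hij
  have hpos : ∀ i : ℕ, 1 ≤ (e (i + 1) : ℕ) := fun i => by
    have := hmono i (i + 1) (Nat.lt_succ_self i)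
    omega
  have hposr : ∀ i : ℕ, (1 : ℝ) ≤ (e (i + 1) : ℕ) := fun i => by exact_mod_cast hpos i
  have key : ∀ i : ℕ, c * ((i : ℝ) + 1) / 6 ≤ Real.sqrt ((e (i + 1) : ℕ) : ℝ) := by
    intro i
    induction i using Nat.twoStepInduction with
    | zero =>
      have := Real.one_le_sqrt.2 (hposr 0)
      push_cast
      linarith
    | one =>
      have := Real.one_le_sqrt.2 (hposr 1)
      push_cast
      linarith
    | more i ih1 _ =>
      have h1 := h _ (e (i + 1)).2 _ (e (i + 2)).2 _ (e (i + 3)).2 (hpos i)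
        (hmono _ _ (by omega)) (hmono _ _ (by omega))
      have h2 := Sum_step hc hc1 (hposr i) h1
      have h3 : c * (((i + 2 : ℕ) : ℝ) + 1) / 6 = c * ((i : ℝ) + 1) / 6 + c / 3 := by
        push_cast
        ring
      rw [h3]
      exact (add_le_add_left ih1 _).trans h2
  rw [← e.toEquiv.summable_iff, ← summable_nat_add_iff 1]
  have hsum : Summable fun i : ℕ => 36 / c ^ 2 * (((i + 1 : ℕ) : ℝ) ^ 2)⁻¹ :=
    ((summable_nat_add_iff 1).2 (Real.summable_nat_pow_inv.2 one_lt_two)).mul_left _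
  refine Summable.of_nonneg_of_le (fun i => ?_) (fun i => ?_) hsum
  · show (0 : ℝ) ≤ (((e (i + 1) : ℕ) : ℝ))⁻¹
    exact inv_nonneg.2 (Nat.cast_nonneg _)
  show (((e (i + 1) : ℕ) : ℝ))⁻¹ ≤ _
  have h1 := key i
  have h2 : (c * ((i : ℝ) + 1) / 6) ^ 2 ≤ ((e (i + 1) : ℕ) : ℝ) := by
    have h3 := pow_le_pow_left₀ (by positivity) h1 2
    rwa [Real.sq_sqrt (by positivity)] at h3
  have h3 : 36 / c ^ 2 * (((i + 1 : ℕ) : ℝ) ^ 2)⁻¹ = ((c * ((i : ℝ) + 1) / 6) ^ 2)⁻¹ := by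
    push_cast
    field_simp
    ring
  rw [h3]
  exact inv_anti₀ (by positivity) h2

end Pool.Agent.UPQ
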