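import Pool.Agent.UPQ.L.An
import Pool.Agent.UPQ.L.Sum
import Pool.Agent.UPQ.L.Div

/-!
# UPQ/L-Line: the final contradiction (paper (1.5))

If `Re t0 < 3/2`, the bound for `a` shows that the norms of the places `v ∉ F0` are bounded; if
`Re t0 = 3/2`, `t0 = 3/2 + i y`, the numbers `q^(1/2 + iy) + q^(1/2 - iy) = 2 √q cos (y log q)` are
integers for all these norms `q`, so that the sum of the `1 / q` converges (`three`, `sum_gap`).  Both
contradict `not_summable`.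
-/

namespace Pool.Agent.UPQ

open NumberField IsDedekindDomain Pool.Agent.HWR Pool.Agent.QD

private theorem lineCpow {q : ℕ} (hq : 1 ≤ q) (z : ℂ) :
    (q : ℂ) ^ z = Complex.exp ((Real.log q : ℂ) * z) := by
  have h : (q : ℂ) ≠ 0 := by
    have : q ≠ 0 := by omega
    exact_mod_cast this
  rw [Complex.cpow_def_of_ne_zero h, Complex.natCast_log]

private theorem lineSqrt {q : ℕ} (hq : 1 ≤ q) : Real.sqrt q = Real.exp (Real.log q / 2) := by
  have h : (0 : ℝ) < q := by exact_mod_cast hq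
  rw [Real.exp_half, Real.exp_log h]

private theorem lineCos {q : ℕ} (hq : 1 ≤ q) {t0 : ℂ} (h : t0.re = 3 / 2) :
    (q : ℂ) ^ (t0 - 1) + (q : ℂ) ^ (2 - t0) =
      ((2 * Real.sqrt q * Real.cos (t0.im * Real.log q) : ℝ) : ℂ) := by
  have ht : t0 = 3 / 2 + (t0.im : ℂ) * Complex.I := by
    apply Complex.ext
    · simp [h]
    · simp
  generalize t0.im = y at ht
  rw [lineCpow hq, lineCpow hq, lineSqrt hq, ht]
  generalize Real.log (q : ℝ) = L
  have h3 := Complex.two_cos ((y : ℂ) * (L : ℂ))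
  push_cast
  have h1 : (L : ℂ) * (3 / 2 + (y : ℂ) * Complex.I - 1) =
      (L : ℂ) / 2 + (y : ℂ) * (L : ℂ) * Complex.I := by ring
  have h2 : (L : ℂ) * (2 - (3 / 2 + (y : ℂ) * Complex.I)) =
      (L : ℂ) / 2 + -((y : ℂ) * (L : ℂ)) * Complex.I := by ring
  rw [h1, h2, Complex.exp_add, Complex.exp_add, ← mul_add, ← h3]
  ring

private theorem lineBound {q : ℕ} (hq : 1 ≤ q) {t0 : ℂ} {x : ℝ} (h0 : |x| ≤ 2 * Real.sqrt q)
    (h : (x : ℂ) = (q : ℂ) ^ (t0 - 1) + (q : ℂ) ^ (2 - t0)) (h2 : t0.re < 3 / 2) :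
    Real.exp (Real.log q * (3 / 2 - t0.re)) ≤ 3 := by
  have hL : 0 ≤ Real.log q := Real.log_natCast_nonneg q
  have h3 : ‖(q : ℂ) ^ (2 - t0)‖ ≤ 2 * Real.sqrt q + ‖(q : ℂ) ^ (t0 - 1)‖ := by
    have h4 : (q : ℂ) ^ (2 - t0) = (x : ℂ) - (q : ℂ) ^ (t0 - 1) := by
      rw [h]
      ring
    have h5 : ‖(x : ℂ)‖ = |x| := by
      rw [Complex.norm_real, Real.norm_eq_abs]
    calc ‖(q : ℂ) ^ (2 - t0)‖ = ‖(x : ℂ) - (q : ℂ) ^ (t0 - 1)‖ := by rw [h4]
      _ ≤ ‖(x : ℂ)‖ + ‖(q : ℂ) ^ (t0 - 1)‖ := norm_sub_le _ _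
      _ ≤ 2 * Real.sqrt q + ‖(q : ℂ) ^ (t0 - 1)‖ := by rw [h5]; linarith
  rw [lineCpow hq, lineCpow hq, Complex.norm_exp, Complex.norm_exp, lineSqrt hq,
    Complex.re_ofReal_mul, Complex.re_ofReal_mul, Complex.sub_re, Complex.sub_re] at h3
  have e1 : (2 : ℂ).re = 2 := rfl
  have e2 : (1 : ℂ).re = 1 := rfl
  rw [e1, e2] at h3
  set L : ℝ := Real.log q with hLd
  set δ : ℝ := 3 / 2 - t0.re with hδ
  have h6 : Real.exp (L * (2 - t0.re)) = Real.exp (L / 2) * Real.exp (L * δ) := by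
    rw [← Real.exp_add, hδ]
    congr 1
    ring
  have h7 : Real.exp (L * (t0.re - 1)) ≤ Real.exp (L / 2) := by
    apply Real.exp_le_exp.2
    nlinarith
  rw [h6] at h3
  have h8 : 0 < Real.exp (L / 2) := Real.exp_pos _
  by_contra h9
  push Not at h9
  nlinarith

theorem noLine (K : Type) [Field K] [NumberField K] {a : ℕ → ℝ}
    (ha : ∀ q : ℕ, |a q| ≤ 2 * Real.sqrt q) (haz : ∀ q : ℕ, ∃ n : ℤ, a q = n) {t0 : ℂ}
    (h1 : 1 ≤ t0.re) (h2 : t0.re ≤ 3 / 2) (F0 : Finset (HeightOneSpectrum (𝓞 K)))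
    (h : ∀ v : HeightOneSpectrum (𝓞 K), v ∉ F0 →
      (a (nrm v) : ℂ) = (nrm v : ℂ) ^ (t0 - 1) + (nrm v : ℂ) ^ (2 - t0)) : False := by
  have _ := h1
  refine not_summable K F0 ?_
  have hN : ∀ q ∈ {q : ℕ | ∃ v : HeightOneSpectrum (𝓞 K), v ∉ F0 ∧ nrm v = q},
      1 ≤ q ∧ (a q : ℂ) = (q : ℂ) ^ (t0 - 1) + (q : ℂ) ^ (2 - t0) := by
    rintro q ⟨v, hv, rfl⟩
    exact ⟨Nat.one_le_iff_ne_zero.2 (nrm_ne_zero v), h v hv⟩
  generalize {q : ℕ | ∃ v : HeightOneSpectrum (𝓞 K), v ∉ F0 ∧ nrm v = q} = N at hN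
  rcases h2.lt_or_eq with h3 | h3
  · have hδ : 0 < 3 / 2 - t0.re := by linarith
    have hfin : N.Finite := by
      refine (Set.finite_Iic ⌊Real.exp (Real.log 3 / (3 / 2 - t0.re))⌋₊).subset fun q hq => ?_
      rw [Set.mem_Iic]
      apply Nat.le_floor
      obtain ⟨h4, h5⟩ := hN q hq
      have h6 := lineBound h4 (ha q) h5 h3
      have h7 : Real.log q * (3 / 2 - t0.re) ≤ Real.log 3 :=
        (Real.le_log_iff_exp_le (by norm_num)).2 h6
      have h8 : Real.log q ≤ Real.log 3 / (3 / 2 - t0.re) := (le_div_iff₀ hδ).2 h7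
      have h9 : (0 : ℝ) < q := by exact_mod_cast h4
      exact (Real.log_le_iff_le_exp h9).1 h8
    have : Finite N := hfin
    exact Summable.of_finite
  · obtain ⟨c, hc, hc1, h4⟩ := three t0.im
    refine sum_gap hc hc1 N fun q1 hq1 q2 hq2 q3 hq3 h5 h6 h7 => ?_
    by_contra h8
    push Not at h8
    have hint : ∀ q ∈ N, ∃ n : ℤ, 2 * Real.sqrt q * Real.cos (t0.im * Real.log q) = n := by
      intro q hq
      obtain ⟨h9, h10⟩ := hN q hq
      obtain ⟨n, hn⟩ := haz q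
      refine ⟨n, ?_⟩
      rw [lineCos h9 h3] at h10
      rw [← hn]
      exact (Complex.ofReal_injective h10).symm
    exact h4 q1 q2 q3 h5 h6 h7 h8 ⟨hint q1 hq1, hint q2 hq2, hint q3 hq3⟩

end Pool.Agent.UPQ
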