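import Pool.Agent.UPQ.A.Defs

/-!
# UPQ/L-Mul: polynomials are multipliers
-/

namespace Pool.Agent.UPQ

open Pool.Agent.QD Pool.Agent.LD Pool.Agent.MD Pool.Agent.THF

private theorem mul_norm_eval (Q : Polynomial ℂ) (s : ℂ) :
    ‖Q.eval s‖ ≤ (∑ i ∈ Finset.range (Q.natDegree + 1), ‖Q.coeff i‖) * (1 + ‖s‖) ^ Q.natDegree := by
  rw [Polynomial.eval_eq_sum_range, Finset.sum_mul]
  refine (norm_sum_le _ _).trans (Finset.sum_le_sum fun i hi => ?_)
  rw [norm_mul, norm_pow]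
  refine mul_le_mul_of_nonneg_left ?_ (norm_nonneg _)
  have h1 : i ≤ Q.natDegree := by
    have := Finset.mem_range.1 hi
    omega
  calc ‖s‖ ^ i ≤ (1 + ‖s‖) ^ i := pow_le_pow_left₀ (norm_nonneg _) (by linarith) _
    _ ≤ (1 + ‖s‖) ^ Q.natDegree := pow_le_pow_right₀ (by linarith [norm_nonneg s]) h1

theorem isMul_poly {Q : Polynomial ℂ} (hQ : Q ≠ 0) : IsMul fun s => Q.eval s := by
  refine ⟨Q.differentiable, fun c a b _ => ?_, ?_⟩
  · refine ⟨Q.natDegree, (∑ i ∈ Finset.range (Q.natDegree + 1), ‖Q.coeff i‖) * (1 + (|a| + |b|)) ^ Q.natDegree,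
      Nat.cast_nonneg _, by positivity, fun s ha hb => ?_⟩
    have h1 : |s.re| ≤ |a| + |b| := by
      rw [abs_le]
      constructor
      · linarith [neg_abs_le a, abs_nonneg b]
      · linarith [le_abs_self b, abs_nonneg a]
    have h2 : ‖s‖ ≤ |s.re| + |s.im| := Complex.norm_le_abs_re_add_abs_im s
    have h3 : 1 + ‖s‖ ≤ (1 + (|a| + |b|)) * (1 + |s.im|) := by
      have h4 : 0 ≤ (|a| + |b|) * |s.im| := by positivity
      nlinarith
    rw [Real.rpow_natCast]
    calc ‖Q.eval s‖ ≤ (∑ i ∈ Finset.range (Q.natDegree + 1), ‖Q.coeff i‖) * (1 + ‖s‖) ^ Q.natDegree := mul_norm_eval Q s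
      _ ≤ (∑ i ∈ Finset.range (Q.natDegree + 1), ‖Q.coeff i‖) *
          ((1 + (|a| + |b|)) * (1 + |s.im|)) ^ Q.natDegree :=
        mul_le_mul_of_nonneg_left (pow_le_pow_left₀ (by positivity) h3 _) (Finset.sum_nonneg fun i _ => norm_nonneg _)
      _ = _ := by
        rw [mul_pow]
        ring
  · by_contra h
    push Not at h
    exact hQ (Polynomial.funext fun s => by rw [h s, Polynomial.eval_zero])

end Pool.Agent.UPQ
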