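import Mathlib

/-!
# UPQ/L-An: three close integers

`f x = 2 √x cos (y log x)` has the derivative `(cos (y log x) - 2 y sin (y log x)) / √x`. If it has integral values at three close integers, they are equal, and by
Rolle the derivative vanishes at two close points, which is impossible.
-/

namespace Pool.Agent.UPQ

private theorem An_deriv (y : ℝ) {x : ℝ} (hx : 0 < x) :
    HasDerivAt (fun x : ℝ => 2 * Real.sqrt x * Real.cos (y * Real.log x))
      ((Real.cos (y * Real.log x) - 2 * y * Real.sin (y * Real.log x)) / Real.sqrt x) x := by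
  have h1 : HasDerivAt (fun x : ℝ => 2 * Real.sqrt x) (2 * (1 / (2 * Real.sqrt x))) x :=
    (Real.hasDerivAt_sqrt hx.ne').const_mul 2
  have h2 : HasDerivAt (fun x : ℝ => Real.cos (y * Real.log x))
      (-Real.sin (y * Real.log x) * (y * x⁻¹)) x :=
    ((Real.hasDerivAt_log hx.ne').const_mul y).cos
  have h3 := h1.mul h2
  refine h3.congr_deriv ?_
  have hs : Real.sqrt x ≠ 0 := (Real.sqrt_pos.2 hx).ne'
  have hxs : Real.sqrt x * Real.sqrt x = x := Real.mul_self_sqrt hx.le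
  have h4 : x⁻¹ = (Real.sqrt x)⁻¹ * (Real.sqrt x)⁻¹ := by
    rw [← mul_inv, hxs]
  rw [h4]
  field_simp
  ring

private theorem An_abs (y : ℝ) {q x : ℝ} (hq : 0 < q) (hx : q ≤ x) :
    |(Real.cos (y * Real.log x) - 2 * y * Real.sin (y * Real.log x)) / Real.sqrt x| ≤
      (1 + 2 * |y|) / Real.sqrt q := by
  have hs : 0 < Real.sqrt q := Real.sqrt_pos.2 hq
  have hs' : Real.sqrt q ≤ Real.sqrt x := Real.sqrt_le_sqrt hx
  rw [abs_div, abs_of_pos (hs.trans_le hs')]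
  refine div_le_div₀ (by positivity) ?_ hs hs'
  refine (abs_sub _ _).trans ?_
  rw [abs_mul, abs_mul, abs_two]
  have h1 := Real.abs_cos_le_one (y * Real.log x)
  have h2 := Real.abs_sin_le_one (y * Real.log x)
  have h3 : 2 * |y| * |Real.sin (y * Real.log x)| ≤ 2 * |y| * 1 :=
    mul_le_mul_of_nonneg_left h2 (by positivity)
  linarith

private theorem An_cont (y : ℝ) {a b : ℝ} (ha : 0 < a) :
    ContinuousOn (fun x : ℝ => 2 * Real.sqrt x * Real.cos (y * Real.log x)) (Set.Icc a b) :=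
  fun _ hx => (An_deriv y (ha.trans_le hx.1)).continuousAt.continuousWithinAt

private theorem An_diff (y : ℝ) {q a b : ℝ} (hq : 0 < q) (ha : q ≤ a) (hab : a < b) :
    |2 * Real.sqrt b * Real.cos (y * Real.log b) - 2 * Real.sqrt a * Real.cos (y * Real.log a)| ≤
      (1 + 2 * |y|) / Real.sqrt q * (b - a) := by
  obtain ⟨ξ, hξ, h1⟩ := exists_hasDerivAt_eq_slope
    (fun x : ℝ => 2 * Real.sqrt x * Real.cos (y * Real.log x))
    (fun x => (Real.cos (y * Real.log x) - 2 * y * Real.sin (y * Real.log x)) / Real.sqrt x)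
    hab (An_cont y (hq.trans_le ha)) (fun x hx => An_deriv y (hq.trans_le (ha.trans hx.1.le)))
  have hb : 0 < b - a := sub_pos.2 hab
  rw [eq_div_iff hb.ne'] at h1
  rw [← h1, abs_mul, abs_of_pos hb]
  exact mul_le_mul_of_nonneg_right (An_abs y hq (ha.trans hξ.1.le)) hb.le

theorem three (y : ℝ) : ∃ c : ℝ, 0 < c ∧ c ≤ 1 ∧ ∀ q1 q2 q3 : ℕ, 1 ≤ q1 → q1 < q2 → q2 < q3 →
    (q3 : ℝ) ≤ q1 + c * Real.sqrt q1 →
    ¬ ((∃ n : ℤ, 2 * Real.sqrt q1 * Real.cos (y * Real.log q1) = n) ∧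
      (∃ n : ℤ, 2 * Real.sqrt q2 * Real.cos (y * Real.log q2) = n) ∧
      ∃ n : ℤ, 2 * Real.sqrt q3 * Real.cos (y * Real.log q3) = n) := by
  have hden : (0 : ℝ) < 2 + 4 * |y| := by positivity
  refine ⟨1 / (2 + 4 * |y|), by positivity, ?_, ?_⟩
  · rw [div_le_one hden]
    have := abs_nonneg y
    linarith
  rintro q1 q2 q3 hq1 h12 h23 h3 ⟨⟨n1, e1⟩, ⟨n2, e2⟩, ⟨n3, e3⟩⟩
  have hq1' : (1 : ℝ) ≤ q1 := by exact_mod_cast hq1
  have h12' : (q1 : ℝ) < q2 := by exact_mod_cast h12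
  have h23' : (q2 : ℝ) < q3 := by exact_mod_cast h23
  have hq0 : (0 : ℝ) < q1 := by linarith
  have hs : 0 < Real.sqrt q1 := Real.sqrt_pos.2 hq0
  have hlen : (q3 : ℝ) - q1 ≤ 1 / (2 + 4 * |y|) * Real.sqrt q1 := by linarith
  have hbound : ∀ d : ℝ, d ≤ 1 / (2 + 4 * |y|) * Real.sqrt q1 →
      (1 + 2 * |y|) / Real.sqrt q1 * d ≤ 1 / 2 := by
    intro d hd
    have h4 : (1 + 2 * |y|) / Real.sqrt q1 * d ≤
        (1 + 2 * |y|) / Real.sqrt q1 * (1 / (2 + 4 * |y|) * Real.sqrt q1) :=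
      mul_le_mul_of_nonneg_left hd (by positivity)
    have h5 : (1 + 2 * |y|) / Real.sqrt q1 * (1 / (2 + 4 * |y|) * Real.sqrt q1) = 1 / 2 := by
      have h6 : (2 + 4 * |y|) = 2 * (1 + 2 * |y|) := by ring
      have h7 : (1 + 2 * |y|) ≠ 0 := by positivity
      rw [h6]
      field_simp
    rw [h5] at h4
    exact h4
  have hint : ∀ m n : ℤ, |(m : ℝ) - n| ≤ 1 / 2 → m = n := by
    intro m n h4
    have h5 : |(m : ℝ) - n| < 1 := by linarith
    have h6 : |m - n| < 1 := by exact_mod_cast h5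
    have h7 := Int.abs_lt_one_iff.1 h6
    omega
  have d12 := An_diff y hq0 le_rfl h12'
  have d23 := An_diff y hq0 h12'.le h23'
  rw [e1, e2] at d12
  rw [e2, e3] at d23
  have m12 : n2 = n1 := hint _ _ (d12.trans (hbound _ (by linarith)))
  have m23 : n3 = n2 := hint _ _ (d23.trans (hbound _ (by linarith)))
  obtain ⟨ξ1, hξ1, z1⟩ := exists_hasDerivAt_eq_zero
    (f := fun x : ℝ => 2 * Real.sqrt x * Real.cos (y * Real.log x))
    (f' := fun x => (Real.cos (y * Real.log x) - 2 * y * Real.sin (y * Real.log x)) / Real.sqrt x)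
    h12' (An_cont y hq0) (by rw [e1, e2, m12])
    (fun x hx => An_deriv y (hq0.trans hx.1))
  obtain ⟨ξ2, hξ2, z2⟩ := exists_hasDerivAt_eq_zero
    (f := fun x : ℝ => 2 * Real.sqrt x * Real.cos (y * Real.log x))
    (f' := fun x => (Real.cos (y * Real.log x) - 2 * y * Real.sin (y * Real.log x)) / Real.sqrt x)
    h23' (An_cont y (hq0.trans h12')) (by rw [e2, e3, m23])
    (fun x hx => An_deriv y (hq0.trans (h12'.trans hx.1)))
  have hξ1p : 0 < ξ1 := hq0.trans hξ1.1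
  have hξ12 : ξ1 < ξ2 := hξ1.2.trans hξ2.1
  have hξ2p : 0 < ξ2 := hξ1p.trans hξ12
  have w1 : Real.cos (y * Real.log ξ1) = 2 * y * Real.sin (y * Real.log ξ1) := by
    rcases div_eq_zero_iff.1 z1 with h4 | h4
    · linarith
    · exact absurd h4 (Real.sqrt_pos.2 hξ1p).ne'
  have w2 : Real.cos (y * Real.log ξ2) = 2 * y * Real.sin (y * Real.log ξ2) := by
    rcases div_eq_zero_iff.1 z2 with h4 | h4
    · linarith
    · exact absurd h4 (Real.sqrt_pos.2 hξ2p).ne'
  have hsin : Real.sin (y * Real.log ξ2 - y * Real.log ξ1) = 0 := by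
    rw [Real.sin_sub, w1, w2]
    ring
  have hlog : Real.log ξ2 - Real.log ξ1 ≤ ξ2 - ξ1 := by
    rw [← Real.log_div hξ2p.ne' hξ1p.ne']
    refine (Real.log_le_sub_one_of_pos (div_pos hξ2p hξ1p)).trans ?_
    have h4 : ξ2 / ξ1 - 1 = (ξ2 - ξ1) / ξ1 := by
      rw [sub_div, div_self hξ1p.ne']
    rw [h4]
    have h5 : 1 ≤ ξ1 := hq1'.trans hξ1.1.le
    exact div_le_self (by linarith) h5
  have hlog0 : 0 < Real.log ξ2 - Real.log ξ1 := sub_pos.2 (Real.log_lt_log hξ1p hξ12)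
  -- the difference of the angles is small
  have hsq : (ξ2 - ξ1) / ξ1 ≤ 1 / (2 + 4 * |y|) := by
    have h4 : ξ2 - ξ1 ≤ 1 / (2 + 4 * |y|) * Real.sqrt q1 := by
      have := hξ1.1
      have := hξ2.2
      linarith
    have h5 : Real.sqrt q1 ≤ ξ1 := by
      have h6 : Real.sqrt q1 ≤ q1 := by
        rw [Real.sqrt_le_left (by linarith)]
        nlinarith
      exact h6.trans hξ1.1.le
    rw [div_le_iff₀ hξ1p]
    exact h4.trans (mul_le_mul_of_nonneg_left h5 (by positivity))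
  have hlog2 : Real.log ξ2 - Real.log ξ1 ≤ 1 / (2 + 4 * |y|) := by
    rw [← Real.log_div hξ2p.ne' hξ1p.ne']
    refine (Real.log_le_sub_one_of_pos (div_pos hξ2p hξ1p)).trans ?_
    have h4 : ξ2 / ξ1 - 1 = (ξ2 - ξ1) / ξ1 := by
      rw [sub_div, div_self hξ1p.ne']
    rw [h4]
    exact hsq
  have habs : |y * Real.log ξ2 - y * Real.log ξ1| < Real.pi := by
    rw [← mul_sub, abs_mul, abs_of_pos hlog0]
    have h4 : |y| * (Real.log ξ2 - Real.log ξ1) ≤ |y| * (1 / (2 + 4 * |y|)) :=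
      mul_le_mul_of_nonneg_left hlog2 (abs_nonneg y)
    have h5 : |y| * (1 / (2 + 4 * |y|)) ≤ 1 := by
      rw [mul_one_div, div_le_one hden]
      have := abs_nonneg y
      linarith
    have h6 := Real.pi_gt_three
    linarith
  have hz := (Real.sin_eq_zero_iff_of_lt_of_lt (abs_lt.1 habs).1 (abs_lt.1 habs).2).1 hsin
  rw [← mul_sub] at hz
  rcases mul_eq_zero.1 hz with h4 | h4
  · rw [h4] at w1
    simp at w1
  · exact absurd h4 hlog0.ne'

end Pool.Agent.UPQ
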